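import Pool.Agent.Q231.HF.Main

/-!
# Hamiltonian Cycle for finite sets of forbidden subgraphs: the criterion of the suns

The `n`-sun consists of a cycle of length `n` with an infinite ray at every vertex of the cycle. Let
`Suns` be the disjoint union of countably many `8`-suns and countably many `4`-suns. For every finite
set of finite graphs none of which is contained in `Suns` the Hamiltonian cycle problem restricted to
the graphs which contain none of them as a subgraph is NP-complete, also for graphs of maximum degree
at most `3`. A finite forest is not contained in `Suns` if it has a vertex of degree at least `4` or a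
component in which no path of length at most `5` contains all the vertices of degree at least `3`.
-/

set_option autoImplicit false

namespace Pool.Agent.Results.MP_f63b47_lc.SunCriterion

open Pool.Agent.NPC Pool.Agent.H679R2 Pool.Agent.NPC.H679 Pool.Agent.Y605.HC
  Pool.Agent.Q231.HF Pool.Agent.NPC.Q231HF SimpleGraph

/-- (1) `H i`, `i < m`: finitely many finite graphs which are not contained in `Suns`. The sets of
codes of the Hamiltonian graphs without subgraphs `H i` (and with maximum degree at most `3`) are in
`NP`, and every language in `NP` is reduced in polynomial time to the Hamiltonian cycle problem by a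
function whose values are codes of graphs of maximum degree at most `3` without subgraphs `H i`.

(2) A finite forest which satisfies `Spread` (some vertex has degree at least `4`, or in some
component no path of length at most `5` contains all vertices of degree at least `3`) is not contained
in `Suns`. -/
theorem result :
    (∀ (m : ℕ) (W : Fin m → Type) [∀ i, Finite (W i)] (H : ∀ i, SimpleGraph (W i)),
      (∀ i, (H i).Free Suns) →
      InNP (lang (fun I : List ℕ × List (ℕ × ℕ) =>
        (∀ i, (H i).Free (toGraph I)) ∧ HasHamCycle I)) ∧
      InNP (lang (fun I : List ℕ × List (ℕ × ℕ) =>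
        (MaxDegreeLeThree (toGraph I) ∧ ∀ i, (H i).Free (toGraph I)) ∧ HasHamCycle I)) ∧
      ∀ L : Set (List Bool), InNP L → ∃ f : List Bool → List Bool, PolyTime f ∧
        ∀ x, ∃ I : List ℕ × List (ℕ × ℕ), f x = bits I ∧ MaxDegreeLeThree (toGraph I) ∧
          (∀ i, (H i).Free (toGraph I)) ∧ (x ∈ L ↔ HasHamCycle I)) ∧
    (∀ (V : Type) [Finite V] (F : SimpleGraph V), F.IsAcyclic → Spread F → F.Free Suns) := by
  refine ⟨?_, fun V _ F hF h => spread_free hF h⟩
  intro m W _ H hH
  refine ⟨?_, ?_, ?_⟩
  · obtain ⟨d, hd, hP⟩ := fam_decidable m W H
    exact inNP_ham hd hP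
  · obtain ⟨d, hd, hP⟩ := famdeg_decidable m W H
    exact inNP_ham hd hP
  · intro L hL
    obtain ⟨f, hf, hcl, h⟩ := hardPr_fam m W H hH L hL
    exact ⟨fun x => bits (f x), PC.toPolyTime hf,
      fun x => ⟨f x, rfl, (hcl x).1, (hcl x).2, h x⟩⟩

end Pool.Agent.Results.MP_f63b47_lc.SunCriterion
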